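import Mathlib

/-!
# Cauchy-Binet for a weighted sum of rank one matrices
-/

set_option autoImplicit false

namespace Pool.Agent.Helper7.MAH

open Finset

/-- Expansion over all maps (rows). -/
theorem det_expand {n : ℕ} {ι : Type} [Fintype ι] (v : ι → Fin n → ℝ) (lam : ι → ℝ) :
    (Matrix.of fun a b => ∑ i, lam i * (v i a * v i b)).det =
      ∑ σ : Fin n → ι, (∏ a, (lam (σ a) * v (σ a) a)) * (Matrix.of fun a => v (σ a)).det := by
  have h := (Matrix.detRowAlternating (n := Fin n) (R := ℝ)).toMultilinearMap.map_sum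
    (fun (a : Fin n) (i : ι) => (lam i * v i a) • v i)
  have h1 : (Matrix.of fun a b => ∑ i, lam i * (v i a * v i b)).det =
      (Matrix.detRowAlternating (n := Fin n) (R := ℝ)).toMultilinearMap
        (fun a => ∑ i, (lam i * v i a) • v i) := by
    show _ = (Matrix.of fun a => ∑ i, (lam i * v i a) • v i).det
    congr 1
    ext a b
    simp only [Matrix.of_apply, Finset.sum_apply, Pi.smul_apply, smul_eq_mul, mul_assoc]
  rw [h1, h]
  refine Finset.sum_congr rfl fun σ _ => ?_
  have h2 := (Matrix.detRowAlternating (n := Fin n) (R := ℝ)).toMultilinearMap.map_smul_univ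
    (fun a => lam (σ a) * v (σ a) a) (fun a => v (σ a))
  rw [h2, smul_eq_mul]
  rfl

/-- Cauchy-Binet: `det (∑ λ_i v_i v_iᵀ) = (1/n!) ∑_σ det(v_σ)² ∏ λ_(σ a)`. -/
theorem cauchy_binet {n : ℕ} {ι : Type} [Fintype ι] (v : ι → Fin n → ℝ) (lam : ι → ℝ) :
    (n.factorial : ℝ) * (Matrix.of fun a b => ∑ i, lam i * (v i a * v i b)).det =
      ∑ σ : Fin n → ι, (Matrix.of fun a => v (σ a)).det ^ 2 * ∏ a, lam (σ a) := by
  -- one copy for every permutation
  have h1 : ∀ π : Equiv.Perm (Fin n),
      (Matrix.of fun a b => ∑ i, lam i * (v i a * v i b)).det =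
      ∑ σ : Fin n → ι, (∏ a, lam (σ a)) *
        (((Equiv.Perm.sign π : ℤ) : ℝ) * ∏ a, v (σ (π a)) a) *
          (Matrix.of fun a => v (σ a)).det := by
    intro π
    rw [det_expand]
    rw [← Equiv.sum_comp (Equiv.arrowCongr π.symm (Equiv.refl ι))]
    refine Finset.sum_congr rfl fun σ _ => ?_
    have h2 : ∀ a, (Equiv.arrowCongr π.symm (Equiv.refl ι)) σ a = σ (π a) := fun a => rfl
    simp only [h2]
    rw [Finset.prod_mul_distrib, Equiv.prod_comp π (fun a => lam (σ a))]
    have h3 : (Matrix.of fun a => v (σ (π a))).det =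
        ((Equiv.Perm.sign π : ℤ) : ℝ) * (Matrix.of fun a => v (σ a)).det := by
      have := Matrix.det_permute π (Matrix.of fun a => v (σ a))
      rw [← this]
      rfl
    rw [h3]
    ring
  have h4 : (n.factorial : ℝ) * (Matrix.of fun a b => ∑ i, lam i * (v i a * v i b)).det =
      ∑ π : Equiv.Perm (Fin n), ∑ σ : Fin n → ι, (∏ a, lam (σ a)) *
        (((Equiv.Perm.sign π : ℤ) : ℝ) * ∏ a, v (σ (π a)) a) *
          (Matrix.of fun a => v (σ a)).det := by
    rw [← Finset.sum_congr rfl fun π _ => h1 π, Finset.sum_const, Finset.card_univ,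
      Fintype.card_perm, Fintype.card_fin, nsmul_eq_mul]
  rw [h4, Finset.sum_comm]
  refine Finset.sum_congr rfl fun σ _ => ?_
  rw [← Finset.sum_mul, ← Finset.mul_sum]
  have h5 : ∑ π : Equiv.Perm (Fin n), ((Equiv.Perm.sign π : ℤ) : ℝ) * ∏ a, v (σ (π a)) a =
      (Matrix.of fun a => v (σ a)).det := by
    rw [Matrix.det_apply']
    rfl
  rw [h5]
  ring

/-- The determinant of a non injective choice of rows is zero. -/
theorem det_noninj {n : ℕ} {ι : Type} (v : ι → Fin n → ℝ) (σ : Fin n → ι)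
    (h : ¬ Function.Injective σ) : (Matrix.of fun a => v (σ a)).det = 0 := by
  simp only [Function.Injective, not_forall] at h
  obtain ⟨a, b, hab, hne⟩ := h
  exact Matrix.det_zero_of_row_eq hne (by show v (σ a) = v (σ b); rw [hab])

/-- A sum over all maps of a function vanishing at non injective maps. -/
theorem sum_emb {n : ℕ} {ι : Type} [Fintype ι] [DecidableEq ι] (f : (Fin n → ι) → ℝ)
    (h : ∀ σ, ¬ Function.Injective σ → f σ = 0) : ∑ σ, f σ = ∑ σ : Fin n ↪ ι, f σ := by
  classical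
  have h1 : ∑ σ, f σ = ∑ σ ∈ univ.filter (fun σ : Fin n → ι => Function.Injective σ), f σ := by
    rw [Finset.sum_filter]
    refine Finset.sum_congr rfl fun σ _ => ?_
    split_ifs with h2
    · rfl
    · exact h σ h2
  rw [h1, Finset.sum_subtype (univ.filter (fun σ : Fin n → ι => Function.Injective σ))
    (p := fun σ => Function.Injective σ) (by simp)]
  exact Fintype.sum_equiv (Equiv.subtypeInjectiveEquivEmbedding (Fin n) ι) _ _ (fun σ => rfl)

/-- Cauchy-Binet, sum over the injections. -/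
theorem cauchy_binet_emb {n : ℕ} {ι : Type} [Fintype ι] [DecidableEq ι] (v : ι → Fin n → ℝ)
    (lam : ι → ℝ) :
    (n.factorial : ℝ) * (Matrix.of fun a b => ∑ i, lam i * (v i a * v i b)).det =
      ∑ σ : Fin n ↪ ι, (Matrix.of fun a => v (σ a)).det ^ 2 * ∏ a, lam (σ a) := by
  rw [cauchy_binet, sum_emb (fun σ : Fin n → ι =>
    (Matrix.of fun a => v (σ a)).det ^ 2 * ∏ a, lam (σ a))]
  intro σ h
  show (Matrix.of fun a => v (σ a)).det ^ 2 * ∏ a, lam (σ a) = 0
  rw [det_noninj v σ h]
  ring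

end Pool.Agent.Helper7.MAH
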